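import Mathlib
import Pool.Agent.Y670.HI.Fin

/-!
There is a chain of length `ω + 1`, strictly increasing under hyperarithmetic reducibility,
of isomorphism relations on hyperarithmetic classes of computable structures which are not
`Δ¹₁` and not complete; all their equivalence classes are `Δ¹₁`.
-/

namespace Pool.Agent.Results.MP_39df03_lc.InfiniteChain

open Pool.Agent.Helper941.Hyp

theorem result : ∃ ar : ℕ → ℕ, Computable ar ∧ ∃ K : ℕ∞ → Set (Struct ar),
    (∀ n, HypClass (K n) ∧ ¬ Delta11 (IsoRel (K n)) ∧ ¬ IsComplete (K n) ∧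
      ∀ y, IndexSet (K n) y → Delta11 fun x => IsoRel (K n) (x, y)) ∧
    ∀ m n, m < n → K m ⊆ K n ∧ HypRed (K m) (K n) ∧ ¬ HypRed (K n) (K m) :=
  Pool.Agent.Y670.HI.main

end Pool.Agent.Results.MP_39df03_lc.InfiniteChain
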